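import Pool.Agent.Q97.UM.Stm3

set_option autoImplicit false

/-!
Project UM (helper97): products, shifts and trivial bounds for Dirichlet polynomials on the critical line.
-/

namespace Pool.Agent.Q84.UM

open Filter Topology MeasureTheory Complex Pool.Agent.Q97.UM

noncomputable section

theorem dp_mul (N M : ℕ) (b c : ℕ → ℂ) (t : ℝ) (hb : ∀ n, N < n → b n = 0)
    (hc : ∀ n, M < n → c n = 0) : dp N b t * dp M c t = dp (N * M) (cv b c) t := by
  unfold dp cv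
  rw [Finset.sum_mul_sum, ← Finset.sum_product']
  rw [← Finset.sum_fiberwise_of_maps_to (t := Finset.Icc 1 (N * M)) (g := fun p : ℕ × ℕ => p.1 * p.2)]
  · refine Finset.sum_congr rfl fun n hn => ?_
    rw [Finset.mem_Icc] at hn
    rw [Finset.sum_mul]
    refine Finset.sum_subset_zero_on_sdiff ?_ ?_ ?_
    · intro p hp
      rw [Finset.mem_filter] at hp
      rw [Nat.mem_divisorsAntidiagonal]
      exact ⟨hp.2, by omega⟩
    · intro p hp
      rw [Finset.mem_sdiff, Nat.mem_divisorsAntidiagonal, Finset.mem_filter, Finset.mem_product,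
        Finset.mem_Icc, Finset.mem_Icc] at hp
      obtain ⟨⟨h1, h2⟩, h3⟩ := hp
      have h4 : p.1 ≠ 0 := by rintro h; rw [h] at h1; simp at h1; omega
      have h5 : p.2 ≠ 0 := by rintro h; rw [h] at h1; simp at h1; omega
      by_cases h6 : N < p.1
      · rw [hb _ h6]; ring
      · by_cases h7 : M < p.2
        · rw [hc _ h7]; ring
        · exact absurd ⟨⟨⟨by omega, by omega⟩, ⟨by omega, by omega⟩⟩, h1⟩ h3
    · intro p hp
      rw [Finset.mem_filter] at hp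
      have h : (n : ℂ) ^ (-(1 / 2 + (t : ℂ) * I)) =
          (p.1 : ℂ) ^ (-(1 / 2 + (t : ℂ) * I)) * (p.2 : ℂ) ^ (-(1 / 2 + (t : ℂ) * I)) := by
        rw [← hp.2, Nat.cast_mul, Complex.natCast_mul_natCast_cpow]
      rw [h]
      ring
  · intro p hp
    rw [Finset.mem_product, Finset.mem_Icc, Finset.mem_Icc] at hp
    rw [Finset.mem_Icc]
    exact ⟨Nat.mul_pos (by omega) (by omega), Nat.mul_le_mul hp.1.2 hp.2.2⟩

theorem norm_tw {n : ℕ} (hn : 1 ≤ n) (y : ℝ) : ‖(n : ℂ) ^ ((y : ℂ) * I)‖ = 1 := by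
  rw [Complex.norm_natCast_cpow_of_pos (by omega)]
  simp

theorem norm_half {n : ℕ} (hn : 1 ≤ n) (t : ℝ) :
    ‖(n : ℂ) ^ (-(1 / 2 + (t : ℂ) * I))‖ = (Real.sqrt n)⁻¹ := by
  rw [Complex.norm_natCast_cpow_of_pos (by omega)]
  have h : (-(1 / 2 + (t : ℂ) * I)).re = -(1 / 2 : ℝ) := by simp
  rw [h, Real.rpow_neg (Nat.cast_nonneg n), Real.sqrt_eq_rpow]

theorem dp_shift (N : ℕ) (b : ℕ → ℂ) (t y : ℝ) :
    dp N b (t - y) = dp N (fun n => b n * (n : ℂ) ^ (y * I)) t := by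
  unfold dp
  refine Finset.sum_congr rfl fun n hn => ?_
  rw [Finset.mem_Icc] at hn
  have h0 : (n : ℂ) ≠ 0 := by exact_mod_cast (by omega : n ≠ 0)
  rw [mul_assoc, ← Complex.cpow_add _ _ h0]
  congr 2
  push_cast
  ring

theorem N2_shift (N : ℕ) (b : ℕ → ℂ) (y : ℝ) : N2 N (fun n => b n * (n : ℂ) ^ (y * I)) = N2 N b := by
  unfold N2
  refine Finset.sum_congr rfl fun n hn => ?_
  rw [Finset.mem_Icc] at hn
  rw [norm_mul, norm_tw hn.1, mul_one]

theorem N2_nonneg (N : ℕ) (b : ℕ → ℂ) : 0 ≤ N2 N b :=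
  Finset.sum_nonneg fun n _ => by positivity

/-- Cauchy-Schwarz -/
theorem sum_sq_le (N : ℕ) (b : ℕ → ℂ) :
    (∑ n ∈ Finset.Icc 1 N, ‖b n‖ * (Real.sqrt n)⁻¹) ^ 2 ≤ N * N2 N b := by
  have h := Finset.sum_mul_sq_le_sq_mul_sq (Finset.Icc 1 N) (fun _ => (1 : ℝ))
    (fun n => ‖b n‖ * (Real.sqrt n)⁻¹)
  simp only [one_mul, one_pow, Finset.sum_const, Nat.card_Icc, Nat.add_sub_cancel, nsmul_eq_mul,
    mul_one] at h
  refine h.trans (le_of_eq ?_)
  unfold N2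
  congr 1
  refine Finset.sum_congr rfl fun n hn => ?_
  rw [mul_pow, inv_pow, Real.sq_sqrt (Nat.cast_nonneg n), div_eq_mul_inv]

theorem norm_dp_le (N : ℕ) (b : ℕ → ℂ) (t : ℝ) :
    ‖dp N b t‖ ≤ ∑ n ∈ Finset.Icc 1 N, ‖b n‖ * (Real.sqrt n)⁻¹ := by
  unfold dp
  refine (norm_sum_le _ _).trans (Finset.sum_le_sum fun n hn => ?_)
  rw [Finset.mem_Icc] at hn
  rw [norm_mul, norm_half hn.1]

theorem norm_dp_sq (N : ℕ) (b : ℕ → ℂ) (t : ℝ) : ‖dp N b t‖ ^ 2 ≤ N * N2 N b :=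
  (pow_le_pow_left₀ (norm_nonneg _) (norm_dp_le N b t) 2).trans (sum_sq_le N b)

theorem dp_cont (N : ℕ) (b : ℕ → ℂ) : Continuous (dp N b) := by
  unfold dp
  refine continuous_finset_sum _ fun n hn => ?_
  rw [Finset.mem_Icc] at hn
  refine continuous_const.mul ?_
  have h0 : (n : ℂ) ≠ 0 := by exact_mod_cast (by omega : n ≠ 0)
  exact Continuous.const_cpow (by fun_prop) (Or.inl h0)

theorem t_DPM : S_DPM :=
  ⟨fun N M b c t hb hc => dp_mul N M b c t hb hc, fun N b t y => ⟨dp_shift N b t y, N2_shift N b y⟩,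
    fun N b t => ⟨norm_dp_sq N b t, dp_cont N b⟩⟩

end

end Pool.Agent.Q84.UM
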