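import Pool.Agent.Q84.UM.MVL
import Pool.Agent.Q97.MM.Cor

set_option autoImplicit false

/-!
Project UM (helper97): the mollified second moment of zeta against a shifted Dirichlet polynomial.
-/

namespace Pool.Agent.Q84.UM

open Filter Topology MeasureTheory Complex Pool.Agent.Q97.UM

noncomputable section

section conv

/-- the convolution of two sequences supported on `[.., N]` and `[.., M]` -/
theorem cv_supp {b c : ℕ → ℂ} {N M : ℕ} (hb : ∀ n, N < n → b n = 0) (hc : ∀ n, M < n → c n = 0)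
    (n : ℕ) (hn : N * M < n) : cv b c n = 0 := by
  unfold cv
  refine Finset.sum_eq_zero fun p hp => ?_
  rw [Nat.mem_divisorsAntidiagonal] at hp
  by_cases h1 : N < p.1
  · rw [hb _ h1, zero_mul]
  · by_cases h2 : M < p.2
    · rw [hc _ h2, mul_zero]
    · exfalso
      have := Nat.mul_le_mul (Nat.le_of_not_lt h1) (Nat.le_of_not_lt h2)
      omega

/-- trivial bound of a convolution -/
theorem cv_norm {b c : ℕ → ℂ} {N : ℕ} {β γ : ℝ} (hb : ∀ n, N < n → b n = 0) (hβ : 0 ≤ β) (hγ : 0 ≤ γ)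
    (hb2 : ∀ n, 1 ≤ n → n ≤ N → ‖b n‖ ≤ β) (hc : ∀ n, 1 ≤ n → ‖c n‖ ≤ γ) (n : ℕ) :
    ‖cv b c n‖ ≤ N * (β * γ) := by
  unfold cv
  have h1 : ∑ p ∈ n.divisorsAntidiagonal, b p.1 * c p.2 =
      ∑ p ∈ n.divisorsAntidiagonal.filter (fun p => p.1 ≤ N), b p.1 * c p.2 := by
    symm
    refine Finset.sum_filter_of_ne fun p hp h => ?_
    by_contra h2
    exact h (by rw [hb _ (by omega), zero_mul])
  rw [h1]
  have h2 : ∀ p ∈ n.divisorsAntidiagonal.filter (fun p => p.1 ≤ N), ‖b p.1 * c p.2‖ ≤ β * γ := by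
    intro p hp
    rw [Finset.mem_filter, Nat.mem_divisorsAntidiagonal] at hp
    obtain ⟨⟨h3, h4⟩, h5⟩ := hp
    have h6 : p.1 ≠ 0 := by rintro h; rw [h] at h3; simp at h3; omega
    have h7 : p.2 ≠ 0 := by rintro h; rw [h] at h3; simp at h3; omega
    rw [norm_mul]
    exact mul_le_mul (hb2 _ (by omega) h5) (hc _ (by omega)) (norm_nonneg _) hβ
  refine (norm_sum_le_of_le _ h2).trans ?_
  rw [Finset.sum_const, nsmul_eq_mul]
  refine mul_le_mul_of_nonneg_right ?_ (mul_nonneg hβ hγ)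
  have h3 : (n.divisorsAntidiagonal.filter (fun p => p.1 ≤ N)).card ≤ (Finset.Icc 1 N).card := by
    refine Finset.card_le_card_of_injOn Prod.fst ?_ ?_
    · intro p hp
      rw [Finset.mem_coe, Finset.mem_filter, Nat.mem_divisorsAntidiagonal] at hp
      obtain ⟨⟨h3, h4⟩, h5⟩ := hp
      have h6 : p.1 ≠ 0 := by rintro h; rw [h] at h3; simp at h3; omega
      rw [Finset.mem_coe, Finset.mem_Icc]
      exact ⟨by omega, h5⟩
    · intro p hp p' hp' h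
      rw [Finset.mem_coe, Finset.mem_filter, Nat.mem_divisorsAntidiagonal] at hp hp'
      have h6 : p.1 ≠ 0 := by rintro h0; rw [h0] at hp; simp at hp; omega
      refine Prod.ext h ?_
      have h7 : p.1 * p.2 = p.1 * p'.2 := by
        rw [hp.1.1]
        have : p.1 * p'.2 = p'.1 * p'.2 := by rw [show p.1 = p'.1 from h]
        rw [this, hp'.1.1]
      exact Nat.eq_of_mul_eq_mul_left (by omega) h7
  rw [Nat.card_Icc, Nat.add_sub_cancel] at h3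
  exact_mod_cast h3

end conv

/-- a coefficient is bounded by the mean square -/
theorem coeff_le {N : ℕ} (b : ℕ → ℂ) {n : ℕ} (h1 : 1 ≤ n) (h2 : n ≤ N) :
    ‖b n‖ ≤ Real.sqrt (N * N2 N b) := by
  apply Real.le_sqrt_of_sq_le
  have h3 : ‖b n‖ ^ 2 / n ≤ N2 N b := by
    unfold N2
    exact Finset.single_le_sum (f := fun n : ℕ => ‖b n‖ ^ 2 / (n : ℝ)) (fun i _ => by positivity)
      (Finset.mem_Icc.2 ⟨h1, h2⟩)
  have h4 : (0 : ℝ) < n := by exact_mod_cast h1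
  rw [div_le_iff₀ h4] at h3
  have h5 : (n : ℝ) ≤ N := by exact_mod_cast h2
  have h6 := N2_nonneg N b
  nlinarith

section eta

variable {Pw q : ℝ → ℝ} {c₀ C₀ : ℝ}

theorem et_norm (hG : Gev Pw q c₀ C₀) (hA : S_AL) (Y n : ℕ) : ‖et Pw Y n‖ ≤ 1 := by
  unfold et
  rw [Complex.norm_real, Real.norm_eq_abs, abs_mul]
  have h1 := hA.2.2 n
  have h2 := hG.bd (Real.log n / Real.log Y)
  rw [abs_of_nonneg h2.1]
  calc |al n| * Pw (Real.log n / Real.log Y) ≤ 1 * 1 :=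
        mul_le_mul h1 h2.2 h2.1 (by norm_num)
    _ = 1 := by norm_num

theorem et_supp (hG : Gev Pw q c₀ C₀) {Y : ℕ} (hY : 2 ≤ Y) (n : ℕ) (hn : Y < n) : et Pw Y n = 0 := by
  unfold et
  have h1 : 0 < Real.log Y := Real.log_pos (by exact_mod_cast (by omega : 1 < Y))
  have h2 : Real.log Y ≤ Real.log n := Real.log_le_log (by exact_mod_cast (by omega : 0 < Y))
    (by exact_mod_cast hn.le)
  have h3 : 1 ≤ |Real.log n / Real.log Y| := by
    rw [abs_of_nonneg (div_nonneg (h1.le.trans h2) h1.le), le_div_iff₀ h1]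
    linarith
  rw [hG.supp _ h3]
  simp

theorem eta_norm (hG : Gev Pw q c₀ C₀) (hA : S_AL) (Y : ℕ) (t : ℝ) : ‖eta Pw Y t‖ ≤ Y := by
  unfold Pool.Agent.Q97.UM.eta
  refine (norm_dp_le _ _ _).trans ?_
  have h1 : ∀ n ∈ Finset.Icc 1 Y, ‖et Pw Y n‖ * (Real.sqrt n)⁻¹ ≤ 1 := by
    intro n hn
    rw [Finset.mem_Icc] at hn
    have h2 : (1 : ℝ) ≤ Real.sqrt n := by
      rw [show (1 : ℝ) = Real.sqrt 1 by simp]
      exact Real.sqrt_le_sqrt (by exact_mod_cast hn.1)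
    calc ‖et Pw Y n‖ * (Real.sqrt n)⁻¹ ≤ 1 * 1 :=
          mul_le_mul (et_norm hG hA Y n) (inv_le_one_of_one_le₀ h2) (by positivity) (by norm_num)
      _ = 1 := by norm_num
  refine (Finset.sum_le_sum h1).trans ?_
  simp

end eta

theorem zt_cont : Continuous zt := by
  rw [continuous_iff_continuousAt]
  intro t
  unfold zt
  have h1 : DifferentiableAt ℂ riemannZeta (1 / 2 + (t : ℂ) * I) := by
    refine differentiableAt_riemannZeta ?_
    intro h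
    have := congrArg Complex.re h
    norm_num at this
  have h2 : ContinuousAt (fun t : ℝ => (1 / 2 : ℂ) + (t : ℂ) * I) t := by fun_prop
  exact ContinuousAt.comp (f := fun t : ℝ => (1 / 2 : ℂ) + (t : ℂ) * I) h1.continuousAt h2

theorem zt_norm (t : ℝ) : ‖zt t‖ ≤ 180 * (1 + |t|) ^ 2 := by
  have h := Q97.MM.zeta_bd t
  unfold Q97.MM.pt at h
  unfold zt
  have e : (1 / 2 : ℂ) = (((1 / 2 : ℝ)) : ℂ) := by push_cast; norm_num
  rw [e]
  exact h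

/-- the integrand -/
theorem integrand_cont (Pw : ℝ → ℝ) (N Y : ℕ) (b : ℕ → ℂ) (y : ℝ) : Continuous fun t : ℝ =>
    ‖dp N b t‖ ^ 2 * (‖zt (t + y)‖ * ‖eta Pw Y (t + y)‖ ^ 2) ^ 2 := by
  have h1 := dp_cont N b
  have h2 : Continuous fun t : ℝ => zt (t + y) := zt_cont.comp (by fun_prop)
  have h3 : Continuous fun t : ℝ => eta Pw Y (t + y) :=
    (dp_cont Y (et Pw Y)).comp (by fun_prop)
  fun_prop

/-- small shifts -/
theorem small {Pw q : ℝ → ℝ} {c₀ C₀ C₁ : ℝ} (hG : Gev Pw q c₀ C₀) (hM : Moll Pw C₁) (hA : S_AL)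
    {κ C T : ℝ} (hκ : 0 < κ) (hC : 1 ≤ C) (hT : 2 ≤ T)
    (hTS : ∀ M : ℕ, (M : ℝ) ≤ T ^ κ → ∀ (c : ℕ → ℂ) (lam : ℝ), (∀ n, ‖c n‖ ≤ lam) →
      ∫ t in (T / 2)..(3 * T), ‖riemannZeta (1 / 2 + t * I)‖ ^ 2 *
        ‖∑ n ∈ Finset.Icc 1 M, c n * (n : ℂ) ^ (-(1 / 2 + t * I))‖ ^ 2 ≤
      C * T * (Real.log T * (QF M c).re + T ^ (-κ) * lam ^ 2))
    {Y N : ℕ} (hY : 2 ≤ Y) (hY2 : (Y : ℝ) ≤ T ^ (κ / 10)) (hY3 : κ / 20 * Real.log T ≤ Real.log Y)
    (hN : N ≤ Y) (b : ℕ → ℂ) (hb : ∀ n, b n ≠ 0 → 1 ≤ n ∧ n ≤ N) (y : ℝ) (hy : |y| ≤ T / 2) :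
    ∫ t in T..(2 * T), ‖dp N b t‖ ^ 2 * (‖zt (t + y)‖ * ‖eta Pw Y (t + y)‖ ^ 2) ^ 2 ≤
      C * (20 * |C₁| / κ + 1) * T * N2 N b := by
  obtain ⟨b', hb'⟩ : ∃ b' : ℕ → ℂ, b' = fun n => b n * (n : ℂ) ^ (y * I) := ⟨_, rfl⟩
  have hb1 : ∀ n, b' n ≠ 0 → 1 ≤ n ∧ n ≤ N := by
    intro n hn
    refine hb n fun h => hn ?_
    rw [hb']
    simp only [h, zero_mul]
  have hb2 : ∀ n, N < n → b' n = 0 := by
    intro n hn
    by_contra h
    have := (hb1 n h).2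
    omega
  have hN2 : N2 N b' = N2 N b := by rw [hb']; exact N2_shift N b y
  have hn0 := N2_nonneg N b
  have he := et_supp hG hY
  obtain ⟨c, hc⟩ : ∃ c : ℕ → ℂ, c = cv b' (cv (et Pw Y) (et Pw Y)) := ⟨_, rfl⟩
  have hee := cv_supp he he
  have key : ∀ s : ℝ, dp N b (s - y) * eta Pw Y s ^ 2 = dp (N * Y ^ 2) c s := by
    intro s
    rw [dp_shift, ← hb', hc, sq, sq]
    unfold Pool.Agent.Q97.UM.eta
    rw [dp_mul Y Y _ _ s he he, dp_mul N (Y * Y) b' _ s hb2 hee]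
  have hT0 : 0 < T := by linarith
  have hlogT : 0 < Real.log T := Real.log_pos (by linarith)
  have hY0 : (0 : ℝ) ≤ Y := Nat.cast_nonneg Y
  have hNY : (N : ℝ) ≤ Y := by exact_mod_cast hN
  -- the parameters for TS
  have hM1 : ((N * Y ^ 2 : ℕ) : ℝ) ≤ T ^ κ := by
    push_cast
    calc (N : ℝ) * (Y : ℝ) ^ 2 ≤ Y * (Y : ℝ) ^ 2 := mul_le_mul_of_nonneg_right hNY (by positivity)
      _ = (Y : ℝ) ^ 3 := by ring
      _ ≤ (T ^ (κ / 10)) ^ 3 := pow_le_pow_left₀ hY0 hY2 3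
      _ = T ^ (κ / 10 * 3) := by rw [← Real.rpow_natCast, ← Real.rpow_mul hT0.le]; norm_num
      _ ≤ T ^ κ := Real.rpow_le_rpow_of_exponent_le (by linarith) (by linarith)
  obtain ⟨lam, hlam⟩ : ∃ lam : ℝ, lam = N * (Real.sqrt (N * N2 N b) * Y) := ⟨_, rfl⟩
  have hcl : ∀ n, ‖c n‖ ≤ lam := by
    intro n
    rw [hc, hlam]
    refine cv_norm hb2 (Real.sqrt_nonneg _) hY0 ?_ ?_ n
    · intro m h1 h2
      rw [← hN2]
      exact coeff_le b' h1 h2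
    · intro m _
      have := cv_norm (c := et Pw Y) (γ := 1) he (β := 1) (by norm_num) (by norm_num)
        (fun n _ _ => et_norm hG hA Y n) (fun n _ => et_norm hG hA Y n) m
      linarith
  have hlam2 : T ^ (-κ) * lam ^ 2 ≤ N2 N b := by
    have h1 : lam ^ 2 = (N : ℝ) ^ 3 * (Y : ℝ) ^ 2 * N2 N b := by
      rw [hlam, mul_pow, mul_pow, Real.sq_sqrt (mul_nonneg (Nat.cast_nonneg N) hn0)]
      ring
    have h2 : (N : ℝ) ^ 3 * (Y : ℝ) ^ 2 ≤ T ^ κ := by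
      calc (N : ℝ) ^ 3 * (Y : ℝ) ^ 2 ≤ (Y : ℝ) ^ 3 * (Y : ℝ) ^ 2 :=
            mul_le_mul_of_nonneg_right (pow_le_pow_left₀ (Nat.cast_nonneg N) hNY 3) (by positivity)
        _ = (Y : ℝ) ^ 5 := by ring
        _ ≤ (T ^ (κ / 10)) ^ 5 := pow_le_pow_left₀ hY0 hY2 5
        _ = T ^ (κ / 10 * 5) := by rw [← Real.rpow_natCast, ← Real.rpow_mul hT0.le]; norm_num
        _ ≤ T ^ κ := Real.rpow_le_rpow_of_exponent_le (by linarith) (by linarith)
    rw [h1, ← mul_assoc]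
    have h3 : T ^ (-κ) * ((N : ℝ) ^ 3 * (Y : ℝ) ^ 2) ≤ 1 := by
      calc T ^ (-κ) * ((N : ℝ) ^ 3 * (Y : ℝ) ^ 2) ≤ T ^ (-κ) * T ^ κ :=
            mul_le_mul_of_nonneg_left h2 (by positivity)
        _ = 1 := by rw [← Real.rpow_add hT0]; simp
    calc T ^ (-κ) * ((N : ℝ) ^ 3 * (Y : ℝ) ^ 2) * N2 N b ≤ 1 * N2 N b :=
          mul_le_mul_of_nonneg_right h3 hn0
      _ = N2 N b := one_mul _
  have hQ : Real.log T * (QF (N * Y ^ 2) c).re ≤ 20 * |C₁| / κ * N2 N b := by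
    have h1 := hM Y N b' hY hN hb1
    rw [← hc, hN2] at h1
    have hlY : 0 < Real.log Y := lt_of_lt_of_le (by positivity) hY3
    have h2 : C₁ / Real.log Y * N2 N b ≤ |C₁| / Real.log Y * N2 N b :=
      mul_le_mul_of_nonneg_right (div_le_div_of_nonneg_right (le_abs_self _) hlY.le) hn0
    have h3 : Real.log T * (|C₁| / Real.log Y) ≤ 20 * |C₁| / κ := by
      rw [← mul_div_assoc, div_le_div_iff₀ hlY hκ]
      have := abs_nonneg C₁
      nlinarith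
    calc Real.log T * (QF (N * Y ^ 2) c).re ≤ Real.log T * (|C₁| / Real.log Y * N2 N b) :=
          mul_le_mul_of_nonneg_left (h1.trans h2) hlogT.le
      _ = Real.log T * (|C₁| / Real.log Y) * N2 N b := by ring
      _ ≤ _ := mul_le_mul_of_nonneg_right h3 hn0
  have hmain := hTS (N * Y ^ 2) hM1 c lam hcl
  -- the change of variables
  have hsub : ∫ t in T..(2 * T), ‖dp N b t‖ ^ 2 * (‖zt (t + y)‖ * ‖eta Pw Y (t + y)‖ ^ 2) ^ 2 =
      ∫ s in (T + y)..(2 * T + y), ‖zt s‖ ^ 2 * ‖dp (N * Y ^ 2) c s‖ ^ 2 := by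
    rw [← intervalIntegral.integral_comp_add_right (fun s => ‖zt s‖ ^ 2 * ‖dp (N * Y ^ 2) c s‖ ^ 2) y]
    refine intervalIntegral.integral_congr fun t _ => ?_
    show ‖dp N b t‖ ^ 2 * (‖zt (t + y)‖ * ‖eta Pw Y (t + y)‖ ^ 2) ^ 2 =
      ‖zt (t + y)‖ ^ 2 * ‖dp (N * Y ^ 2) c (t + y)‖ ^ 2
    rw [← key (t + y), norm_mul, norm_pow, add_sub_cancel_right]
    ring
  rw [hsub]
  have hcont : Continuous fun s : ℝ => ‖zt s‖ ^ 2 * ‖dp (N * Y ^ 2) c s‖ ^ 2 := by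
    have h1 := zt_cont
    have h2 := dp_cont (N * Y ^ 2) c
    fun_prop
  rw [abs_le] at hy
  have hle : ∫ s in (T + y)..(2 * T + y), ‖zt s‖ ^ 2 * ‖dp (N * Y ^ 2) c s‖ ^ 2 ≤
      ∫ s in (T / 2)..(3 * T), ‖zt s‖ ^ 2 * ‖dp (N * Y ^ 2) c s‖ ^ 2 := by
    refine intervalIntegral.integral_mono_interval (by linarith) (by linarith) (by linarith) ?_
      (hcont.intervalIntegrable _ _)
    exact Filter.Eventually.of_forall fun s => by positivity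
  refine hle.trans ?_
  refine (le_of_eq (by rfl)).trans (hmain.trans ?_)
  have h1 : Real.log T * (QF (N * Y ^ 2) c).re + T ^ (-κ) * lam ^ 2 ≤
      (20 * |C₁| / κ + 1) * N2 N b := by linarith
  calc C * T * (Real.log T * (QF (N * Y ^ 2) c).re + T ^ (-κ) * lam ^ 2) ≤
        C * T * ((20 * |C₁| / κ + 1) * N2 N b) := mul_le_mul_of_nonneg_left h1 (by positivity)
    _ = _ := by ring

/-- large shifts -/
theorem large {Pw q : ℝ → ℝ} {c₀ C₀ : ℝ} (hG : Gev Pw q c₀ C₀) (hA : S_AL)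
    {θ T : ℝ} (hT : 16 ≤ T) (hθ : θ ≤ 1 / 40) {Y N : ℕ} (hY2 : (Y : ℝ) ≤ T ^ θ)
    (hN : (N : ℝ) ≤ T ^ θ) (b : ℕ → ℂ) (y : ℝ) (hy : T / 2 < |y|) :
    ∫ t in T..(2 * T), ‖dp N b t‖ ^ 2 * (‖zt (t + y)‖ * ‖eta Pw Y (t + y)‖ ^ 2) ^ 2 ≤
      (4 * 180 ^ 2 * 625) * T * (1 + |y|) ^ 6 * N2 N b := by
  have hT0 : 0 < T := by linarith
  have hn0 := N2_nonneg N b
  have hY0 : (0 : ℝ) ≤ Y := Nat.cast_nonneg Y
  have hy0 := abs_nonneg y
  have hY4 : (Y : ℝ) ^ 4 ≤ 2 * (1 + |y|) := by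
    calc (Y : ℝ) ^ 4 ≤ (T ^ θ) ^ 4 := pow_le_pow_left₀ hY0 hY2 4
      _ = T ^ (θ * 4) := by rw [← Real.rpow_natCast, ← Real.rpow_mul hT0.le]; norm_num
      _ ≤ T ^ (1 : ℝ) := Real.rpow_le_rpow_of_exponent_le (by linarith) (by linarith)
      _ = T := Real.rpow_one T
      _ ≤ 2 * (1 + |y|) := by linarith
  have hpt : ∀ t ∈ Set.Icc T (2 * T), ‖dp N b t‖ ^ 2 * (‖zt (t + y)‖ * ‖eta Pw Y (t + y)‖ ^ 2) ^ 2 ≤
      ‖dp N b t‖ ^ 2 * (2 * 180 ^ 2 * 625 * (1 + |y|) ^ 5) := by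
    intro t ht
    refine mul_le_mul_of_nonneg_left ?_ (by positivity)
    have h1 := zt_norm (t + y)
    have h2 := eta_norm hG hA Y (t + y)
    have h3 : 1 + |t + y| ≤ 5 * (1 + |y|) := by
      have h4 := abs_add_le t y
      have h5 : |t| = t := abs_of_nonneg (by linarith [ht.1])
      have := ht.2
      linarith
    have h4 : 0 ≤ 1 + |t + y| := by positivity
    have h5 : ‖zt (t + y)‖ ≤ 180 * (25 * (1 + |y|) ^ 2) := by
      refine h1.trans ?_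
      have : (1 + |t + y|) ^ 2 ≤ (5 * (1 + |y|)) ^ 2 := pow_le_pow_left₀ h4 h3 2
      nlinarith
    have h6 : ‖eta Pw Y (t + y)‖ ^ 2 ≤ (Y : ℝ) ^ 2 := pow_le_pow_left₀ (norm_nonneg _) h2 2
    have h7 : ‖zt (t + y)‖ * ‖eta Pw Y (t + y)‖ ^ 2 ≤ 180 * (25 * (1 + |y|) ^ 2) * (Y : ℝ) ^ 2 :=
      mul_le_mul h5 h6 (by positivity) (by positivity)
    calc (‖zt (t + y)‖ * ‖eta Pw Y (t + y)‖ ^ 2) ^ 2 ≤
          (180 * (25 * (1 + |y|) ^ 2) * (Y : ℝ) ^ 2) ^ 2 := pow_le_pow_left₀ (by positivity) h7 2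
      _ = 180 ^ 2 * 625 * (1 + |y|) ^ 4 * (Y : ℝ) ^ 4 := by ring
      _ ≤ 180 ^ 2 * 625 * (1 + |y|) ^ 4 * (2 * (1 + |y|)) :=
          mul_le_mul_of_nonneg_left hY4 (by positivity)
      _ = 2 * 180 ^ 2 * 625 * (1 + |y|) ^ 5 := by ring
  have hdp := dp_cont N b
  have hint : ∫ t in T..(2 * T), ‖dp N b t‖ ^ 2 * (‖zt (t + y)‖ * ‖eta Pw Y (t + y)‖ ^ 2) ^ 2 ≤
      ∫ t in T..(2 * T), ‖dp N b t‖ ^ 2 * (2 * 180 ^ 2 * 625 * (1 + |y|) ^ 5) := by
    refine intervalIntegral.integral_mono_on (by linarith)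
      ((integrand_cont Pw N Y b y).intervalIntegrable _ _) ?_ hpt
    apply Continuous.intervalIntegrable
    fun_prop
  refine hint.trans ?_
  rw [intervalIntegral.integral_mul_const]
  have h8 := (t_MVL T hT N (hN.trans (Real.rpow_le_rpow_of_exponent_le (by linarith)
    (by linarith))) b).2
  have h9 : (1 + |y|) ^ 5 ≤ (1 + |y|) ^ 6 := pow_le_pow_right₀ (by linarith) (by norm_num)
  calc (∫ t in T..(2 * T), ‖dp N b t‖ ^ 2) * (2 * 180 ^ 2 * 625 * (1 + |y|) ^ 5) ≤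
        (2 * T * N2 N b) * (2 * 180 ^ 2 * 625 * (1 + |y|) ^ 6) :=
        mul_le_mul h8 (by linarith) (by positivity) (by positivity)
    _ = _ := by ring

theorem t_R2 : S_R2 := by
  intro Pw q c₀ C₀ C₁ hG hM hTS hA _ _
  obtain ⟨κ, C, hκ, hκ4, hC, hev⟩ := hTS
  refine ⟨κ / 10, max (C * (20 * |C₁| / κ + 1)) (4 * 180 ^ 2 * 625), by positivity, by linarith,
    by positivity, ?_⟩
  have hinf : Tendsto (fun T : ℝ => T ^ (κ / 10)) atTop atTop := tendsto_rpow_atTop (by positivity)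
  filter_upwards [hev, eventually_ge_atTop 16, hinf.eventually_ge_atTop 4] with T hT1 hT2 hT3
  intro N hN b hb y
  have hT0 : 0 < T := by linarith
  have hn0 := N2_nonneg N b
  have hx1 := hN
  generalize hx : T ^ (κ / 10) = x at hT3 hN ⊢
  have hY2 : ((⌊x⌋₊ : ℕ) : ℝ) ≤ x := Nat.floor_le (by linarith)
  have hY : 2 ≤ ⌊x⌋₊ := Nat.le_floor (by push_cast; linarith)
  have hNY : N ≤ ⌊x⌋₊ := Nat.le_floor hN
  have hY3 : κ / 20 * Real.log T ≤ Real.log (⌊x⌋₊ : ℕ) := by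
    have h1 : Real.sqrt x ≤ (⌊x⌋₊ : ℕ) := by
      have h2 : x < (⌊x⌋₊ : ℕ) + 1 := Nat.lt_floor_add_one x
      have h3 : Real.sqrt x ≤ x / 2 := by
        rw [Real.sqrt_le_left (by linarith)]
        nlinarith
      have h4 : x / 2 ≤ x - 1 := by linarith
      linarith
    have h2 : Real.log (Real.sqrt x) = κ / 20 * Real.log T := by
      rw [Real.log_sqrt (by linarith), ← hx, Real.log_rpow hT0]
      ring
    rw [← h2]
    exact Real.log_le_log (Real.sqrt_pos.2 (by linarith)) h1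
  have h1 : (1 : ℝ) ≤ (1 + |y|) ^ 6 := one_le_pow₀ (by linarith [abs_nonneg y])
  rcases le_or_gt |y| (T / 2) with hy | hy
  · have h2 := small hG hM hA hκ hC (by linarith) hT1 hY (hY2.trans hx.ge) hY3 hNY b hb y hy
    refine h2.trans ?_
    have h3 : C * (20 * |C₁| / κ + 1) ≤ max (C * (20 * |C₁| / κ + 1)) (4 * 180 ^ 2 * 625) :=
      le_max_left _ _
    have h4 : 0 ≤ max (C * (20 * |C₁| / κ + 1)) (4 * 180 ^ 2 * 625) := by positivity
    calc C * (20 * |C₁| / κ + 1) * T * N2 N b ≤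
          max (C * (20 * |C₁| / κ + 1)) (4 * 180 ^ 2 * 625) * T * N2 N b := by gcongr
      _ = max (C * (20 * |C₁| / κ + 1)) (4 * 180 ^ 2 * 625) * T * 1 * N2 N b := by ring
      _ ≤ _ := by gcongr
  · have h2 := large hG hA (q := q) hT2 (θ := κ / 10) (by linarith) (hY2.trans hx.ge) hx1 b y hy
    refine h2.trans ?_
    have h3 : (4 * 180 ^ 2 * 625 : ℝ) ≤ max (C * (20 * |C₁| / κ + 1)) (4 * 180 ^ 2 * 625) :=
      le_max_right _ _
    gcongr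

end

end Pool.Agent.Q84.UM
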