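import Pool.Agent.Q84.UM.DPM

set_option autoImplicit false

/-!
Project UM (helper97): the mean value of a short Dirichlet polynomial.
-/

namespace Pool.Agent.Q84.UM

open Filter Topology MeasureTheory Complex Pool.Agent.Q97.UM

noncomputable section

theorem int_osc (ω : ℝ) (hω : ω ≠ 0) (a b : ℝ) :
    ‖∫ t in a..b, cexp (-(I * (ω : ℂ)) * (t : ℂ))‖ ≤ 2 / |ω| := by
  have hc : -(I * (ω : ℂ)) ≠ 0 := by
    rw [neg_ne_zero]
    exact mul_ne_zero I_ne_zero (by exact_mod_cast hω)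
  rw [integral_exp_mul_complex hc, norm_div]
  have h1 : ‖-(I * (ω : ℂ))‖ = |ω| := by simp
  rw [h1]
  refine div_le_div_of_nonneg_right ?_ (abs_nonneg ω)
  have h2 : ∀ x : ℝ, ‖cexp (-(I * (ω : ℂ)) * (x : ℂ))‖ = 1 := by
    intro x
    rw [Complex.norm_exp]
    have : (-(I * (ω : ℂ)) * (x : ℂ)).re = 0 := by simp
    rw [this, Real.exp_zero]
  refine (norm_sub_le _ _).trans ?_
  rw [h2, h2]
  norm_num

theorem log_sep1 {N m n : ℕ} (hm : 1 ≤ m) (hmn : m < n) (hn : n ≤ N) :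
    1 / (N : ℝ) ≤ Real.log n - Real.log m := by
  have hm0 : (0 : ℝ) < m := by exact_mod_cast hm
  have hn0 : (0 : ℝ) < n := by exact_mod_cast (by omega : 0 < n)
  rw [← Real.log_div hn0.ne' hm0.ne']
  refine le_trans ?_ (Real.one_sub_inv_le_log_of_pos (div_pos hn0 hm0))
  rw [inv_div]
  have h1 : (m : ℝ) + 1 ≤ n := by exact_mod_cast hmn
  have h2 : 1 / (N : ℝ) ≤ 1 / n := one_div_le_one_div_of_le hn0 (by exact_mod_cast hn)
  refine h2.trans ?_
  rw [div_le_iff₀ hn0, sub_mul, div_mul_cancel₀ _ hn0.ne']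
  linarith

theorem log_sep {N m n : ℕ} (hm : 1 ≤ m) (hm2 : m ≤ N) (hn : 1 ≤ n) (hn2 : n ≤ N) (h : m ≠ n) :
    1 / (N : ℝ) ≤ |Real.log m - Real.log n| := by
  rcases lt_or_gt_of_ne h with h1 | h1
  · have := log_sep1 hm h1 hn2
    rw [abs_sub_comm]
    exact this.trans (le_abs_self _)
  · have := log_sep1 hn h1 hm2
    exact this.trans (le_abs_self _)

theorem cpow_half {n : ℕ} (hn : 1 ≤ n) (t : ℝ) : (n : ℂ) ^ (-(1 / 2 + (t : ℂ) * I)) =
    (((Real.sqrt n)⁻¹ : ℝ) : ℂ) * cexp (-(I * (Real.log n : ℂ)) * (t : ℂ)) := by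
  have h0 : (n : ℂ) ≠ 0 := by exact_mod_cast (by omega : n ≠ 0)
  have hn0 : (0 : ℝ) < n := by exact_mod_cast hn
  rw [Complex.cpow_def_of_ne_zero h0, ← Complex.natCast_log]
  have h2 : (((Real.sqrt n)⁻¹ : ℝ) : ℂ) = cexp ((-(1 / 2) * Real.log n : ℝ) : ℂ) := by
    rw [← Complex.ofReal_exp]
    congr 1
    rw [Real.sqrt_eq_rpow, ← Real.rpow_neg hn0.le, Real.rpow_def_of_pos hn0]
    congr 1
    ring
  rw [h2, ← Complex.exp_add]
  congr 1
  push_cast
  ring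

/-- one term of the expanded square -/
theorem term (m n : ℕ) (hm : 1 ≤ m) (hn : 1 ≤ n) (b : ℕ → ℂ) (t : ℝ) :
    (b m * (m : ℂ) ^ (-(1 / 2 + (t : ℂ) * I))) *
      (starRingEnd ℂ) (b n * (n : ℂ) ^ (-(1 / 2 + (t : ℂ) * I))) =
    (b m * (starRingEnd ℂ) (b n) * (((Real.sqrt m)⁻¹ * (Real.sqrt n)⁻¹ : ℝ) : ℂ)) *
      cexp (-(I * ((Real.log m - Real.log n : ℝ) : ℂ)) * (t : ℂ)) := by
  rw [cpow_half hm, cpow_half hn, map_mul, map_mul, Complex.conj_ofReal, ← Complex.exp_conj]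
  have h1 : (starRingEnd ℂ) (-(I * (Real.log n : ℂ)) * (t : ℂ)) = I * (Real.log n : ℂ) * (t : ℂ) := by
    rw [map_mul, map_neg, map_mul, Complex.conj_I, Complex.conj_ofReal, Complex.conj_ofReal]
    ring
  rw [h1]
  have h2 : cexp (-(I * ((Real.log m - Real.log n : ℝ) : ℂ)) * (t : ℂ)) =
      cexp (-(I * (Real.log m : ℂ)) * (t : ℂ)) * cexp (I * (Real.log n : ℂ) * (t : ℂ)) := by
    rw [← Complex.exp_add]
    congr 1
    push_cast
    ring
  rw [h2]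
  push_cast
  ring

theorem sq_expand (N : ℕ) (b : ℕ → ℂ) (t : ℝ) : ((‖dp N b t‖ ^ 2 : ℝ) : ℂ) =
    ∑ m ∈ Finset.Icc 1 N, ∑ n ∈ Finset.Icc 1 N,
      (b m * (starRingEnd ℂ) (b n) * (((Real.sqrt m)⁻¹ * (Real.sqrt n)⁻¹ : ℝ) : ℂ)) *
      cexp (-(I * ((Real.log m - Real.log n : ℝ) : ℂ)) * (t : ℂ)) := by
  rw [← Complex.normSq_eq_norm_sq, ← Complex.mul_conj]
  unfold dp
  rw [map_sum, Finset.sum_mul_sum]
  refine Finset.sum_congr rfl fun m hm => Finset.sum_congr rfl fun n hn => ?_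
  rw [Finset.mem_Icc] at hm hn
  exact term m n hm.1 hn.1 b t

theorem int_sq (N : ℕ) (b : ℕ → ℂ) (A B : ℝ) : ((∫ t in A..B, ‖dp N b t‖ ^ 2 : ℝ) : ℂ) =
    ∑ m ∈ Finset.Icc 1 N, ∑ n ∈ Finset.Icc 1 N,
      (b m * (starRingEnd ℂ) (b n) * (((Real.sqrt m)⁻¹ * (Real.sqrt n)⁻¹ : ℝ) : ℂ)) *
      ∫ t in A..B, cexp (-(I * ((Real.log m - Real.log n : ℝ) : ℂ)) * (t : ℂ)) := by
  rw [← intervalIntegral.integral_ofReal]
  simp_rw [sq_expand]
  rw [intervalIntegral.integral_finsetSum]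
  · refine Finset.sum_congr rfl fun m hm => ?_
    rw [intervalIntegral.integral_finsetSum]
    · refine Finset.sum_congr rfl fun n hn => ?_
      rw [intervalIntegral.integral_const_mul]
    · intro n hn
      apply Continuous.intervalIntegrable
      fun_prop
  · intro m hm
    apply Continuous.intervalIntegrable
    fun_prop

theorem diag (N : ℕ) (b : ℕ → ℂ) (T : ℝ) : ‖((∫ t in T..(2 * T), ‖dp N b t‖ ^ 2 : ℝ) : ℂ) -
    ((T * N2 N b : ℝ) : ℂ)‖ ≤ 2 * N * (N * N2 N b) := by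
  have e : ((T * N2 N b : ℝ) : ℂ) = ∑ m ∈ Finset.Icc 1 N, ∑ n ∈ Finset.Icc 1 N,
      if m = n then ((T * (‖b m‖ ^ 2 / m) : ℝ) : ℂ) else 0 := by
    unfold N2
    rw [Finset.mul_sum, Complex.ofReal_sum]
    refine Finset.sum_congr rfl fun m hm => ?_
    rw [Finset.sum_ite_eq, if_pos hm]
  rw [int_sq, e, ← Finset.sum_sub_distrib]
  have e2 : 2 * (N : ℝ) * (∑ n ∈ Finset.Icc 1 N, ‖b n‖ * (Real.sqrt n)⁻¹) ^ 2 =
      ∑ m ∈ Finset.Icc 1 N, ∑ n ∈ Finset.Icc 1 N,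
        2 * (N : ℝ) * ((‖b m‖ * (Real.sqrt m)⁻¹) * (‖b n‖ * (Real.sqrt n)⁻¹)) := by
    rw [sq, Finset.sum_mul_sum, Finset.mul_sum]
    exact Finset.sum_congr rfl fun m _ => by rw [Finset.mul_sum]
  refine le_trans ?_ (mul_le_mul_of_nonneg_left (sum_sq_le N b) (by positivity))
  rw [e2]
  refine (norm_sum_le _ _).trans (Finset.sum_le_sum fun m hm => ?_)
  rw [← Finset.sum_sub_distrib]
  refine (norm_sum_le _ _).trans (Finset.sum_le_sum fun n hn => ?_)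
  rw [Finset.mem_Icc] at hm hn
  have hN : (0 : ℝ) < N := by exact_mod_cast (by omega : 0 < N)
  split_ifs with h
  · subst h
    have h1 : (∫ t in T..(2 * T), cexp (-(I * ((Real.log m - Real.log m : ℝ) : ℂ)) * (t : ℂ))) =
        (T : ℂ) := by
      simp only [sub_self, Complex.ofReal_zero, mul_zero, neg_zero, zero_mul, Complex.exp_zero]
      rw [intervalIntegral.integral_const]
      simp
      ring
    rw [h1]
    have h2 : b m * (starRingEnd ℂ) (b m) * (((Real.sqrt m)⁻¹ * (Real.sqrt m)⁻¹ : ℝ) : ℂ) * (T : ℂ) -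
        ((T * (‖b m‖ ^ 2 / m) : ℝ) : ℂ) = 0 := by
      rw [Complex.mul_conj, Complex.normSq_eq_norm_sq, ← mul_inv, Real.mul_self_sqrt (Nat.cast_nonneg m)]
      push_cast
      ring
    rw [h2, norm_zero]
    positivity
  · rw [sub_zero, norm_mul, norm_mul, norm_mul, RCLike.norm_conj, Complex.norm_real, Real.norm_eq_abs,
      abs_of_nonneg (by positivity)]
    have h1 : ‖∫ t in T..(2 * T), cexp (-(I * ((Real.log m - Real.log n : ℝ) : ℂ)) * (t : ℂ))‖ ≤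
        2 * N := by
      have h3 := log_sep hm.1 hm.2 hn.1 hn.2 h
      have h4 : (0 : ℝ) < 1 / N := by positivity
      have h5 : Real.log m - Real.log n ≠ 0 := by
        intro h6
        rw [h6, abs_zero] at h3
        linarith
      refine (int_osc _ h5 _ _).trans ?_
      rw [div_le_iff₀ (by positivity)]
      have h6 : (N : ℝ) * (1 / N) ≤ N * |Real.log m - Real.log n| :=
        mul_le_mul_of_nonneg_left h3 hN.le
      rw [mul_one_div_cancel hN.ne'] at h6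
      linarith
    calc ‖b m‖ * ‖b n‖ * ((Real.sqrt m)⁻¹ * (Real.sqrt n)⁻¹) *
          ‖∫ t in T..(2 * T), cexp (-(I * ((Real.log m - Real.log n : ℝ) : ℂ)) * (t : ℂ))‖
        ≤ ‖b m‖ * ‖b n‖ * ((Real.sqrt m)⁻¹ * (Real.sqrt n)⁻¹) * (2 * N) :=
          mul_le_mul_of_nonneg_left h1 (by positivity)
      _ = _ := by ring

theorem t_MVL : S_MVL := by
  intro T hT N hN b
  have h0 := N2_nonneg N b
  have h1 := diag N b T
  rw [← Complex.ofReal_sub, Complex.norm_real, Real.norm_eq_abs, abs_le] at h1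
  have h2 : (N : ℝ) ^ 2 ≤ Real.sqrt T := by
    have h3 : (N : ℝ) ^ 2 ≤ (T ^ (1 / 4 : ℝ)) ^ 2 := pow_le_pow_left₀ (Nat.cast_nonneg N) hN 2
    refine h3.trans (le_of_eq ?_)
    rw [← Real.rpow_natCast, ← Real.rpow_mul (by linarith), Real.sqrt_eq_rpow]
    norm_num
  have h3 : 2 * Real.sqrt T ≤ T / 2 := by
    have h4 : (4 : ℝ) ≤ Real.sqrt T := by
      rw [show (4 : ℝ) = Real.sqrt 16 by rw [show (16 : ℝ) = 4 ^ 2 by norm_num]; simp]
      exact Real.sqrt_le_sqrt hT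
    have h5 : Real.sqrt T * Real.sqrt T = T := Real.mul_self_sqrt (by linarith)
    nlinarith
  have h4 : 2 * (N : ℝ) * (N * N2 N b) ≤ T / 2 * N2 N b := by
    have h5 : 2 * (N : ℝ) * (N * N2 N b) = 2 * (N : ℝ) ^ 2 * N2 N b := by ring
    rw [h5]
    exact mul_le_mul_of_nonneg_right (by linarith) h0
  constructor
  · linarith
  · nlinarith

end

end Pool.Agent.Q84.UM
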